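import Pool.Agent.Helper47.DS.Defs

/-!
# Rows ADD and BAS of Theorem D* (MP_5165fa)
-/

open Set BIC
open scoped Matroid

namespace BICS

universe u

theorem addStmt : AddStmt.{u} := by
  intro α M _ C F F' X hCI hX
  have hCE : C ⊆ M.E := hCI.subset_ground
  have hfin : C.Finite := M.ground_finite.subset hCE
  have key : ∀ D ⊆ C, rk (M ／ D) X + D.ncard = rk M (X ∪ D) := by
    intro D hD
    have h1 := rk_contract_set (M := M) (C := D) (X := X) (hD.trans hCE)
      (fun e he => ⟨(hX he).1, fun h => (hX he).2 (hD h)⟩)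
    rwa [rk_indep (hCI.subset hD)] at h1
  have k1 := key (C \ (F ∪ F')) sdiff_subset
  have k2 := key C subset_rfl
  have k3 := key (C \ F) sdiff_subset
  have k4 := key (C \ F') sdiff_subset
  have hsub := rk_submod (M := M) (X ∪ C \ F) (X ∪ C \ F')
  have e1 : (X ∪ C \ F) ∩ (X ∪ C \ F') = X ∪ C \ (F ∪ F') := by
    ext e
    simp only [mem_inter_iff, mem_union, mem_sdiff]
    tauto
  have e2 : (X ∪ C \ F) ∪ (X ∪ C \ F') = X ∪ C \ (F ∩ F') := by
    ext e
    simp only [mem_inter_iff, mem_union, mem_sdiff]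
    tauto
  rw [e1, e2] at hsub
  have e3 : X ∪ C = (X ∪ C \ (F ∩ F')) ∪ (C ∩ (F ∩ F')) := by
    ext e
    simp only [mem_inter_iff, mem_union, mem_sdiff]
    tauto
  have h5 : rk M (X ∪ C) ≤ rk M (X ∪ C \ (F ∩ F')) + (C ∩ (F ∩ F')).ncard := by
    rw [e3]
    exact rk_union_le _ (hfin.subset inter_subset_left)
  have c1 : (C \ (F ∩ F')).ncard + (C ∩ (F ∩ F')).ncard = C.ncard := by
    have := Set.ncard_inter_add_ncard_sdiff_eq_ncard C (F ∩ F') hfin
    omega
  have c2 : (C \ F).ncard + (C \ F').ncard = (C \ (F ∪ F')).ncard + (C \ (F ∩ F')).ncard := by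
    have h := Set.ncard_union_add_ncard_inter (C \ F) (C \ F') (hfin.subset sdiff_subset)
      (hfin.subset sdiff_subset)
    have e4 : C \ F ∪ C \ F' = C \ (F ∩ F') := by
      ext e
      simp only [mem_inter_iff, mem_union, mem_sdiff]
      tauto
    have e5 : C \ F ∩ (C \ F') = C \ (F ∪ F') := by
      ext e
      simp only [mem_inter_iff, mem_union, mem_sdiff]
      tauto
    rw [e4, e5] at h
    omega
  omega

theorem basStmt : BasStmt.{u} := by
  intro α M _ C F hC
  obtain ⟨B₀, hB₀⟩ := M.exists_isBasis (C \ F) (sdiff_subset.trans hC)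
  obtain ⟨B, hB, hB₀B⟩ := hB₀.indep.subset_isBasis_of_subset (hB₀.subset.trans sdiff_subset) hC
  have hBF : B \ F = B₀ := by
    apply subset_antisymm
    · intro e he
      by_contra hne
      have h1 : M.Indep (insert e B₀) := hB.indep.subset (insert_subset he.1 hB₀B)
      exact hne (hB₀.mem_of_insert_indep ⟨hB.subset he.1, he.2⟩ h1)
    · intro e he
      exact ⟨hB₀B he, (hB₀.subset he).2⟩
  have gen : ∀ (D I : Set α), M.IsBasis I D → ∀ X ⊆ M.E \ D, rk (M ／ I) X = rk (M ／ D) X := by
    intro D I hI X hX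
    have hD : D ⊆ M.E := hI.subset_ground
    have h1 := rk_contract_set (M := M) hD hX
    have h2 := rk_contract_set (M := M) (C := I) (X := X) (hI.subset.trans hD)
      (fun e he => ⟨(hX he).1, fun h => (hX he).2 (hI.subset h)⟩)
    have h3 : rk M D = rk M I := by
      rw [← rk_closure D, ← rk_closure I, hI.closure_eq_closure]
    have h4 : rk M (X ∪ D) = rk M (X ∪ I) := by
      rw [← rk_closure (X ∪ D), ← rk_closure (X ∪ I), ← M.closure_union_closure_right_eq X D,
        ← hI.closure_eq_closure, M.closure_union_closure_right_eq]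
    omega
  refine ⟨B, hB.subset, hB.indep, ?_, gen C B hB, ?_⟩
  · intro E ends hE
    have hsub : E ⊆ M.E \ C := hE.sub
    exact Bic_of_rk hE (fun e he => ⟨(hsub he).1, fun h => (hsub he).2 (hB.subset h)⟩)
      (fun X hX => gen C B hB X (hX.trans hsub))
  · intro X hX
    rw [hBF]
    exact gen (C \ F) B₀ hB₀ X (fun e he => ⟨(hX he).1, fun h => (hX he).2 h.1⟩)

end BICS
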